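import Pool.Agent.Work.MP_c4d05f_lc.N.Hav.Bas

/-!
# The graphs `S_{i,j,k}` and `L_l`, and the classes of graphs used in block `N`
-/

set_option autoImplicit false

namespace Pool.Agent.Work.MP_c4d05f_lc.N

open Pool.Agent.Work.MP_c4d05f_lc.Hav

/-- The length of the leg number `a` of `S_{i,j,k}`. -/
def legLen (i j k : ℕ) (a : Fin 3) : ℕ := if a = 0 then i else if a = 1 then j else k

/-- The graph `S_{i,j,k}`: the vertex `none` is the centre, the leg number `a` is the path
`(a, 0), (a, 1), …` with `legLen i j k a` vertices, and its first vertex is adjacent to the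
centre. -/
def spider (i j k : ℕ) : SimpleGraph (Option (Σ a : Fin 3, Fin (legLen i j k a))) where
  Adj u v := match u, v with
    | none, none => False
    | none, some y => y.2.val = 0
    | some x, none => x.2.val = 0
    | some x, some y => x.1 = y.1 ∧ (y.2.val = x.2.val + 1 ∨ x.2.val = y.2.val + 1)
  symm := ⟨by
    intro u v h
    rcases u with _ | x <;> rcases v with _ | y
    · exact h
    · exact h
    · exact h
    · exact ⟨h.1.symm, h.2.symm⟩⟩
  loopless := ⟨by
    intro u h
    rcases u with _ | x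
    · exact h
    · rcases h.2 with h | h <;> omega⟩

/-- The net with legs of length `l`: a triangle `(0, 0), (1, 0), (2, 0)` and the disjoint paths
`(a, 0), (a, 1), …, (a, l)`. -/
def netG (l : ℕ) : SimpleGraph (Fin 3 × Fin (l + 1)) where
  Adj u v := (u.1 ≠ v.1 ∧ u.2.val = 0 ∧ v.2.val = 0) ∨
    (u.1 = v.1 ∧ (v.2.val = u.2.val + 1 ∨ u.2.val = v.2.val + 1))
  symm := ⟨by
    intro u v h
    rcases h with ⟨h1, h2, h3⟩ | ⟨h1, h2⟩
    · exact Or.inl ⟨h1.symm, h3, h2⟩
    · exact Or.inr ⟨h1.symm, h2.symm⟩⟩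
  loopless := ⟨by
    intro u h
    rcases h with ⟨h1, -⟩ | ⟨-, h2⟩
    · exact h1 rfl
    · rcases h2 with h | h <;> omega⟩

variable {V W : Type}

/-- Induced `S_{l,l,l}` are preserved by embeddings. -/
theorem hasS_map {G : SimpleGraph V} {H : SimpleGraph W} (f : G ↪g H) {l : ℕ} (h : HasS G l) :
    HasS H l := by
  obtain ⟨z, p, hp, hap⟩ := h
  refine ⟨f z, fun i j => f (p i j), ?_, ?_⟩
  · intro i hi
    refine ⟨?_, congrArg f (hp i hi).2⟩
    intro a b hab hb
    obtain ⟨h1, h2⟩ := (hp i hi).1 a b hab hb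
    exact ⟨fun he => h1 (f.injective he), by rw [f.map_adj_iff, h2]⟩
  · intro i j hij hj a b ha hal hb hbl
    obtain ⟨h1, h2⟩ := hap i j hij hj a b ha hal hb hbl
    exact ⟨fun he => h1 (f.injective he), fun he => h2 (f.map_adj_iff.1 he)⟩

/-- Induced nets are preserved by embeddings. -/
theorem hasL_map {G : SimpleGraph V} {H : SimpleGraph W} (f : G ↪g H) {l : ℕ} (h : HasL G l) :
    HasL H l := by
  obtain ⟨p, hp, hap⟩ := h
  refine ⟨fun i j => f (p i j), ?_, ?_⟩
  · intro i hi a b hab hb
    obtain ⟨h1, h2⟩ := hp i hi a b hab hb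
    exact ⟨fun he => h1 (f.injective he), by rw [f.map_adj_iff, h2]⟩
  · intro i j hij hj a b hal hbl
    obtain ⟨h1, h2⟩ := hap i j hij hj a b hal hbl
    exact ⟨fun he => h1 (f.injective he), by rw [f.map_adj_iff, h2]⟩

/-- An induced `S_{l,l,l}` contains an induced `S_{i,j,k}` for `i, j, k ≤ l`. -/
theorem spider_of_hasS {G : SimpleGraph V} {i j k l : ℕ} (hi : i ≤ l) (hj : j ≤ l) (hk : k ≤ l)
    (h : HasS G l) : Nonempty (spider i j k ↪g G) := by
  obtain ⟨z, p, hp, hap⟩ := h
  have hlen : ∀ a : Fin 3, legLen i j k a ≤ l := by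
    intro a
    unfold legLen
    split_ifs <;> assumption
  have hS : ∀ a < 3, ∀ s t, s < t → t ≤ l →
      p a s ≠ p a t ∧ (G.Adj (p a s) (p a t) ↔ t = s + 1) := fun a ha s t hst ht =>
    (hp a ha).1 s t hst (by omega)
  have hz : ∀ a < 3, p a 0 = z := fun a ha => (hp a ha).2
  let f : Option (Σ a : Fin 3, Fin (legLen i j k a)) → V := fun u => match u with
    | none => z
    | some x => p x.1.val (x.2.val + 1)
  have hlt : ∀ x : (Σ a : Fin 3, Fin (legLen i j k a)), x.2.val + 1 ≤ l := fun x =>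
    (Nat.succ_le_of_lt x.2.isLt).trans (hlen x.1)
  have hone : ∀ x : (Σ a : Fin 3, Fin (legLen i j k a)),
      f none ≠ f (some x) ∧ (G.Adj (f none) (f (some x)) ↔ x.2.val = 0) := by
    intro x
    have h1 := hS x.1.val x.1.isLt 0 (x.2.val + 1) (by omega) (hlt x)
    rw [hz x.1.val x.1.isLt] at h1
    refine ⟨h1.1, h1.2.trans ?_⟩
    omega
  have htwo : ∀ x y : (Σ a : Fin 3, Fin (legLen i j k a)), x ≠ y →
      f (some x) ≠ f (some y) ∧ (G.Adj (f (some x)) (f (some y)) ↔
        x.1 = y.1 ∧ (y.2.val = x.2.val + 1 ∨ x.2.val = y.2.val + 1)) := by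
    have key : ∀ x y : (Σ a : Fin 3, Fin (legLen i j k a)), x.1.val < y.1.val →
        Apart G (f (some x)) (f (some y)) := fun x y hxy =>
      hap x.1.val y.1.val hxy y.1.isLt _ _ (by omega) (hlt x) (by omega) (hlt y)
    have key2 : ∀ x y : (Σ a : Fin 3, Fin (legLen i j k a)), x.1 = y.1 → x.2.val < y.2.val →
        f (some x) ≠ f (some y) ∧ (G.Adj (f (some x)) (f (some y)) ↔ y.2.val = x.2.val + 1) := by
      intro x y hxy hlt'
      have h1 := hS x.1.val x.1.isLt (x.2.val + 1) (y.2.val + 1) (by omega) (hlt y)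
      have h2 : f (some y) = p x.1.val (y.2.val + 1) := by
        simp only [f]
        rw [hxy]
      rw [h2]
      refine ⟨h1.1, h1.2.trans ?_⟩
      omega
    intro x y hxy
    rcases lt_trichotomy x.1.val y.1.val with h | h | h
    · have h1 := key x y h
      refine ⟨h1.1, iff_of_false h1.2 ?_⟩
      rintro ⟨h2, -⟩
      rw [h2] at h
      omega
    · have h' : x.1 = y.1 := Fin.ext h
      rcases lt_trichotomy x.2.val y.2.val with h3 | h3 | h3
      · have h1 := key2 x y h' h3
        refine ⟨h1.1, h1.2.trans ?_⟩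
        constructor
        · exact fun h => ⟨h', Or.inl h⟩
        · rintro ⟨-, h | h⟩ <;> omega
      · exfalso
        apply hxy
        obtain ⟨a, s⟩ := x
        obtain ⟨b, t⟩ := y
        simp only at h' h3
        subst h'
        rw [Fin.ext h3]
      · have h1 := key2 y x h'.symm h3
        refine ⟨h1.1.symm, ?_⟩
        rw [G.adj_comm, h1.2]
        constructor
        · exact fun h => ⟨h', Or.inr h⟩
        · rintro ⟨-, h | h⟩ <;> omega
    · have h1 := (key y x h).symm
      refine ⟨h1.1, iff_of_false h1.2 ?_⟩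
      rintro ⟨h2, -⟩
      rw [h2] at h
      omega
  refine ⟨⟨⟨f, ?_⟩, ?_⟩⟩
  · intro u v huv
    by_contra hne
    rcases u with _ | x <;> rcases v with _ | y
    · exact hne rfl
    · exact (hone y).1 huv
    · exact (hone x).1 huv.symm
    · exact (htwo x y (fun h => hne (by rw [h]))).1 huv
  · intro u v
    rcases u with _ | x <;> rcases v with _ | y
    · exact iff_of_false (G.loopless.irrefl _) (fun h => h)
    · exact (hone y).2
    · exact (G.adj_comm _ _).trans (hone x).2
    · by_cases hxy : x = y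
      · subst hxy
        exact iff_of_false (G.loopless.irrefl _) ((spider i j k).loopless.irrefl _)
      · exact (htwo x y hxy).2

/-- An induced net with long legs gives an embedding of `netG l`. -/
theorem net_of_hasL {G : SimpleGraph V} {l : ℕ} (h : HasL G l) : Nonempty (netG l ↪g G) := by
  obtain ⟨p, hp, hap⟩ := h
  let f : Fin 3 × Fin (l + 1) → V := fun u => p u.1.val u.2.val
  have key : ∀ x y : Fin 3 × Fin (l + 1), x.1.val < y.1.val →
      f x ≠ f y ∧ (G.Adj (f x) (f y) ↔ x.2.val = 0 ∧ y.2.val = 0) := fun x y hxy =>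
    hap x.1.val y.1.val hxy y.1.isLt _ _ (by omega) (by omega)
  have key2 : ∀ x y : Fin 3 × Fin (l + 1), x.1 = y.1 → x.2.val < y.2.val →
      f x ≠ f y ∧ (G.Adj (f x) (f y) ↔ y.2.val = x.2.val + 1) := by
    intro x y hxy hlt
    have h1 := hp x.1.val x.1.isLt x.2.val y.2.val hlt y.2.isLt
    have h2 : f y = p x.1.val y.2.val := by
      simp only [f]
      rw [hxy]
    rw [h2]
    exact h1
  have htwo : ∀ x y : Fin 3 × Fin (l + 1), x ≠ y →
      f x ≠ f y ∧ (G.Adj (f x) (f y) ↔ (netG l).Adj x y) := by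
    intro x y hxy
    rcases lt_trichotomy x.1.val y.1.val with h | h | h
    · have h1 := key x y h
      refine ⟨h1.1, h1.2.trans ?_⟩
      constructor
      · exact fun h2 => Or.inl ⟨fun h3 => by rw [h3] at h; omega, h2.1, h2.2⟩
      · rintro (⟨-, h2⟩ | ⟨h2, -⟩)
        · exact h2
        · rw [h2] at h
          omega
    · have h' : x.1 = y.1 := Fin.ext h
      rcases lt_trichotomy x.2.val y.2.val with h3 | h3 | h3
      · have h1 := key2 x y h' h3
        refine ⟨h1.1, h1.2.trans ?_⟩
        constructor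
        · exact fun h => Or.inr ⟨h', Or.inl h⟩
        · rintro (⟨h4, -⟩ | ⟨-, h4 | h4⟩)
          · exact absurd h' h4
          · exact h4
          · omega
      · exact absurd (Prod.ext h' (Fin.ext h3)) hxy
      · have h1 := key2 y x h'.symm h3
        refine ⟨h1.1.symm, ?_⟩
        rw [G.adj_comm, h1.2]
        constructor
        · exact fun h => Or.inr ⟨h', Or.inr h⟩
        · rintro (⟨h4, -⟩ | ⟨-, h4 | h4⟩)
          · exact absurd h' h4
          · omega
          · exact h4
    · have h1 := key y x h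
      refine ⟨h1.1.symm, ?_⟩
      rw [G.adj_comm, h1.2]
      constructor
      · exact fun h2 => Or.inl ⟨fun h3 => by rw [h3] at h; omega, h2.2, h2.1⟩
      · rintro (⟨-, h2⟩ | ⟨h2, -⟩)
        · exact ⟨h2.2, h2.1⟩
        · rw [h2] at h
          omega
  refine ⟨⟨⟨f, ?_⟩, ?_⟩⟩
  · intro u v huv
    by_contra hne
    exact (htwo u v hne).1 huv
  · intro u v
    by_cases huv : u = v
    · subst huv
      exact iff_of_false (G.loopless.irrefl _) ((netG l).loopless.irrefl _)
    · exact (htwo u v huv).2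

/-- A net with long legs contains a net with shorter legs. -/
theorem hasL_mono {G : SimpleGraph V} {l m : ℕ} (hlm : l ≤ m) (h : HasL G m) : HasL G l := by
  obtain ⟨p, hp, hap⟩ := h
  exact ⟨p, fun i hi => (hp i hi).mono (by omega), fun i j hij hj a b ha hb =>
    hap i j hij hj a b (by omega) (by omega)⟩

/-- Graphs without an induced `S_{l,l,l}`. -/
def ClsS (l : ℕ) (V : Type) (G : SimpleGraph V) : Prop := ¬ HasS G l

/-- Graphs without an induced `S_{l,l,l}` and without an induced net with legs of length `l`. -/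
def ClsSL (l : ℕ) (V : Type) (G : SimpleGraph V) : Prop := ¬ HasS G l ∧ ¬ HasL G l

theorem clsS_closed (l : ℕ) : ∀ (V W : Type) (G : SimpleGraph V) (H : SimpleGraph W),
    Nonempty (H ↪g G) → ClsS l V G → ClsS l W H :=
  fun _ _ _ _ ⟨f⟩ h h' => h (hasS_map f h')

theorem clsSL_closed (l : ℕ) : ∀ (V W : Type) (G : SimpleGraph V) (H : SimpleGraph W),
    Nonempty (H ↪g G) → ClsSL l V G → ClsSL l W H :=
  fun _ _ _ _ ⟨f⟩ h => ⟨fun h' => h.1 (hasS_map f h'), fun h' => h.2 (hasL_map f h')⟩

end Pool.Agent.Work.MP_c4d05f_lc.N
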