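import Pool.Agent.Work.MP_c4d05f_lc.N.Alg.Basic
import Pool.Agent.Work.MP_c4d05f_lc.N.Hav.Defs

/-!
# From a minimal bad region to a haven
-/

set_option autoImplicit false

namespace Pool.Agent.Work.MP_c4d05f_lc.N

open Pool.Agent.Work.MP_c4d05f_lc Pool.Agent.Work.MP_c4d05f_lc.Hav

variable {V : Type} {G : SimpleGraph V} {β : Set V}

/-- No `K₄` in a graph with a solution. -/
theorem noK4_of_col (hβ : Col G Set.univ β) : NoK4 G := by
  intro a b c d hab hac had hbc hbd hcd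
  -- two of the vertices `a, b, c, d` cannot be white, so some black one has two black neighbours
  have h3 : ∀ x y z : V, G.Adj x y → G.Adj x z → G.Adj y z → ¬ (x ∈ β ∧ y ∈ β ∧ z ∈ β) := by
    rintro x y z hxy hxz hyz ⟨hx, hy, hz⟩
    exact hyz.ne (black_unique hβ hx hy hz hxy hxz)
  have h2 : ∀ x y : V, G.Adj x y → x ∈ β ∨ y ∈ β := fun x y h => hβ.1 x trivial y trivial h
  by_cases ha : a ∈ β
  · by_cases hb : b ∈ β
    · rcases h2 c d hcd with h | h
      · exact h3 a b c hab hac hbc ⟨ha, hb, h⟩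
      · exact h3 a b d hab had hbd ⟨ha, hb, h⟩
    · have hc := (h2 b c hbc).resolve_left hb
      have hd := (h2 b d hbd).resolve_left hb
      exact h3 a c d hac had hcd ⟨ha, hc, hd⟩
  · have hb := (h2 a b hab).resolve_left ha
    have hc := (h2 a c hac).resolve_left ha
    have hd := (h2 a d had).resolve_left ha
    exact h3 b c d hbc hbd hcd ⟨hb, hc, hd⟩

/-- (D8) Inside a component of `G - D(Y)` only the members of `X` in it matter. -/
theorem comp_sdiff_dD (hβ : Col G Set.univ β) {Y : Set V} {u : V} (hu : u ∉ dD G β Y)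
    (X : Set V) : Comp G (dD G β Y)ᶜ u \ dD G β X =
      Comp G (dD G β Y)ᶜ u \ dD G β (X ∩ Comp G (dD G β Y)ᶜ u) := by
  ext z
  simp only [Set.mem_sdiff]
  refine and_congr_right fun hz => ?_
  constructor
  · rintro h1 ⟨x, hx, hzx⟩
    exact h1 ⟨x, hx.1, hzx⟩
  · rintro h1 ⟨x, hx, hzx⟩
    by_cases hxC : x ∈ Comp G (dD G β Y)ᶜ u
    · exact h1 ⟨x, ⟨hx, hxC⟩, hzx⟩
    · exact region_disjoint hβ hu hz hxC hzx

/-- The components of `K - D(Y)`, `K` a component of `G - D(X)`, are the components of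
`G - D(Y ∪ (X ∩ C))`, `C` the component of `G - D(Y)`. -/
theorem comp_swap (hβ : Col G Set.univ β) {X Y : Set V} {v u : V} (hv : v ∉ dD G β X)
    (hu : u ∈ Comp G (dD G β X)ᶜ v) (huY : u ∉ dD G β Y) :
    Comp G (Comp G (dD G β X)ᶜ v \ dD G β Y) u =
      Comp G (dD G β (Y ∪ (X ∩ Comp G (dD G β Y)ᶜ u)))ᶜ u := by
  have huX : u ∉ dD G β X := comp_subset (A := (dD G β X)ᶜ) hv hu
  rw [comp_comp hv hu, Set.sdiff_eq, Set.inter_comm, ← Set.sdiff_eq,
    ← comp_comp (A := (dD G β Y)ᶜ) (B := dD G β X) huY (self_mem_comp u),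
    comp_sdiff_dD hβ huY, comp_comp huY (self_mem_comp u), dD_union, Set.compl_union, Set.sdiff_eq]

/-- **A minimal bad region gives a haven.** -/
theorem hs_of_bad [Finite V] [DecidableEq V] (hβ : Col G Set.univ β) (k w₁ : ℕ)
    (hw : 2 * (k + 1) ≤ w₁) (Good : Set V → Prop)
    (hkill : ∀ K, Region G β w₁ K → ∀ Y : Finset V, Y.card ≤ k + 1 →
      (∀ u ∈ K, u ∉ dD G β Y → Good (Comp G (K \ dD G β Y) u)) → Good K)
    (K₀ : Set V) (hK₀ : Region G β w₁ K₀) (hbad : ¬ Good K₀) :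
    ∃ (X : Finset V) (v : V), X.card ≤ w₁ ∧ v ∉ dD G β X ∧
      ¬ Good (Comp G (dD G β X)ᶜ v) ∧
      (∀ K', Region G β w₁ K' → K'.ncard < (Comp G (dD G β X)ᶜ v).ncard → Good K') ∧
      ∃ H : HS V k, H.G = G ∧ H.W = βᶜ ∧ H.D = dd G β ∧
        ∀ Y : Finset V, Y.card ≤ k → (∃ u, u ∉ dD G β Y ∧ H.β Y = Comp G (dD G β Y)ᶜ u) ∧
          w₁ < 2 * ((X : Set V) ∩ H.β Y).ncard := by
  classical
  -- a bad region with the least number of elements
  obtain ⟨K, ⟨hKr, hKb⟩, hmin⟩ : ∃ K : Set V, (Region G β w₁ K ∧ ¬ Good K) ∧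
      ∀ K', Region G β w₁ K' → K'.ncard < K.ncard → Good K' := by
    have hex : ∃ n, ∃ K : Set V, (Region G β w₁ K ∧ ¬ Good K) ∧ K.ncard = n :=
      ⟨_, K₀, ⟨hK₀, hbad⟩, rfl⟩
    obtain ⟨K, hK, hn⟩ := Nat.find_spec hex
    refine ⟨K, hK, fun K' hK' hlt => ?_⟩
    by_contra hcon
    exact Nat.find_min hex (hn ▸ hlt) ⟨K', ⟨hK', hcon⟩, rfl⟩
  obtain ⟨X, hX, v, hv, rfl⟩ := hKr
  refine ⟨X, v, hX, hv, hKb, hmin, ?_⟩
  -- for every small `Y` there is a big component
  have hbig : ∀ Y : Finset V, Y.card ≤ k → ∃ u, u ∉ dD G β (Y : Set V) ∧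
      w₁ < 2 * ((X : Set V) ∩ Comp G (dD G β (Y : Set V))ᶜ u).ncard := by
    intro Y hY
    by_contra hcon
    push Not at hcon
    apply hKb
    have hYc : (insert v Y).card ≤ k + 1 := (Finset.card_insert_le v Y).trans (by omega)
    refine hkill _ ⟨X, hX, v, hv, rfl⟩ (insert v Y) hYc ?_
    intro u hu huY
    have hYsub : dD G β (Y : Set V) ⊆ dD G β ((insert v Y : Finset V) : Set V) :=
      dD_mono (by rw [Finset.coe_insert]; exact Set.subset_insert _ _)
    have hsub : Comp G (dD G β ((insert v Y : Finset V) : Set V))ᶜ u ⊆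
        Comp G (dD G β (Y : Set V))ᶜ u := comp_mono (Set.compl_subset_compl.2 hYsub) u
    have hcard := hcon u (fun h => huY (hYsub h))
    have hfin : ((X : Set V) ∩ Comp G (dD G β (Y : Set V))ᶜ u).Finite := Set.toFinite _
    have hle : ((X : Set V) ∩ Comp G (dD G β ((insert v Y : Finset V) : Set V))ᶜ u).ncard ≤
        ((X : Set V) ∩ Comp G (dD G β (Y : Set V))ᶜ u).ncard :=
      Set.ncard_le_ncard (Set.inter_subset_inter_right _ hsub) hfin
    apply hmin
    · -- it is a region of order `w₁`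
      have hfin' : ((X : Set V) ∩ Comp G (dD G β ((insert v Y : Finset V) : Set V))ᶜ u).Finite :=
        Set.toFinite _
      refine ⟨insert v Y ∪ hfin'.toFinset, ?_, u, ?_, ?_⟩
      · have h1 := Finset.card_union_le (insert v Y) hfin'.toFinset
        rw [← Set.ncard_eq_toFinset_card _ hfin'] at h1
        omega
      · rw [Finset.coe_union, Set.Finite.coe_toFinset, dD_union]
        rintro (h1 | ⟨x, hx, h1⟩)
        · exact huY h1
        · exact comp_subset (A := (dD G β (X : Set V))ᶜ) hv hu ⟨x, hx.1, h1⟩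
      · rw [Finset.coe_union, Set.Finite.coe_toFinset]
        exact comp_swap hβ hv hu huY
    · apply Set.ncard_lt_ncard _ (Set.toFinite _)
      refine ⟨fun z hz => ?_, fun hsub' => ?_⟩
      · exact (comp_subset (A := Comp G (dD G β (X : Set V))ᶜ v \
          dD G β ((insert v Y : Finset V) : Set V)) ⟨hu, huY⟩ hz).1
      · have hv' := comp_subset (A := Comp G (dD G β (X : Set V))ᶜ v \
          dD G β ((insert v Y : Finset V) : Set V)) ⟨hu, huY⟩ (hsub' (self_mem_comp v))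
        exact hv'.2 (self_mem_dD (by simp))
  have : Nonempty V := ⟨v⟩
  choose! c hc1 hc2 using hbig
  -- the big component is unique
  have huniq : ∀ Y : Finset V, Y.card ≤ k → ∀ u, u ∉ dD G β (Y : Set V) →
      w₁ < 2 * ((X : Set V) ∩ Comp G (dD G β (Y : Set V))ᶜ u).ncard →
      Comp G (dD G β (Y : Set V))ᶜ u = Comp G (dD G β (Y : Set V))ᶜ (c Y) := by
    intro Y hY u hu hu2
    by_contra hne
    have hdisj : Disjoint ((X : Set V) ∩ Comp G (dD G β (Y : Set V))ᶜ u)
        ((X : Set V) ∩ Comp G (dD G β (Y : Set V))ᶜ (c Y)) := by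
      rw [Set.disjoint_left]
      rintro z ⟨-, hz1⟩ ⟨-, hz2⟩
      exact hne ((comp_eq (A := (dD G β (Y : Set V))ᶜ) hu hz1).symm.trans
        (comp_eq (A := (dD G β (Y : Set V))ᶜ) (hc1 Y hY) hz2))
    have h1 := Set.ncard_union_eq hdisj (Set.toFinite _) (Set.toFinite _)
    have h2 : ((X : Set V) ∩ Comp G (dD G β (Y : Set V))ᶜ u ∪
        (X : Set V) ∩ Comp G (dD G β (Y : Set V))ᶜ (c Y)).ncard ≤ (X : Set V).ncard :=
      Set.ncard_le_ncard (Set.union_subset Set.inter_subset_left Set.inter_subset_left)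
        (Set.toFinite _)
    rw [Set.ncard_coe_finset] at h2
    have h3 := hc2 Y hY
    omega
  refine ⟨{
    G := G
    W := βᶜ
    D := dd G β
    β := fun Y => Comp G (dD G β (Y : Set V))ᶜ (c Y)
    self_mem := self_mem_dd
    black := fun x u z hu hub h => dd_black hβ hu (not_not.1 hub) h
    white := ?_
    indep := ?_
    noK4 := noK4_of_col hβ
    nonempty := fun Y _ => ⟨c Y, self_mem_comp _⟩
    alive := ?_
    conn := ?_
    closed := ?_
    mono := ?_ }, rfl, rfl, rfl, ?_⟩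
  · intro x u z hu hub hz _ a b h1 h2 h3 h4
    by_contra hab
    exact hz (dd_cl hu hub (Relation.ReflTransGen.single ⟨a, b, hab, h1, h2, h3, h4⟩))
  · intro u hu z hz h
    rcases hβ.1 u trivial z trivial h with h1 | h1
    · exact hu h1
    · exact hz h1
  · intro Y hY z hz x hx hzx
    exact comp_subset (A := (dD G β (Y : Set V))ᶜ) (hc1 Y hY) hz ⟨x, hx, hzx⟩
  · intro Y hY a ha b hb
    have e : Comp G (dD G β (Y : Set V))ᶜ a = Comp G (dD G β (Y : Set V))ᶜ (c Y) :=
      comp_eq (A := (dD G β (Y : Set V))ᶜ) (hc1 Y hY) ha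
    have hb' : Reach G (dD G β (Y : Set V))ᶜ a b := by
      have : b ∈ Comp G (dD G β (Y : Set V))ᶜ a := e ▸ hb
      exact this
    have key : ∀ z, Reach G (dD G β (Y : Set V))ᶜ a z →
        Reach G (Comp G (dD G β (Y : Set V))ᶜ (c Y)) a z := by
      intro z hz
      have hz0 := hz
      clear hz0
      have h2 : Reach G (Comp G (dD G β (Y : Set V))ᶜ (c Y)) a z ∧
          z ∈ Comp G (dD G β (Y : Set V))ᶜ (c Y) := by
        induction hz with
        | refl => exact ⟨Relation.ReflTransGen.refl, ha⟩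
        | @tail p q h1 h2 ih =>
          have hq := adj_mem_comp ih.2 h2.2 h2.1
          exact ⟨ih.1.tail ⟨h2.1, hq⟩, hq⟩
      exact h2.1
    exact key b hb'
  · intro Y hY u hu z h hz
    refine adj_mem_comp hu ?_ h
    rintro ⟨x, hx, hzx⟩
    exact hz x hx hzx
  · intro Y Z hYZ hZ
    have hY : Y.card ≤ k := (Finset.card_le_card hYZ).trans hZ
    have hsub : Comp G (dD G β (Z : Set V))ᶜ (c Z) ⊆ Comp G (dD G β (Y : Set V))ᶜ (c Z) :=
      comp_mono (Set.compl_subset_compl.2 (dD_mono (by exact_mod_cast hYZ))) _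
    have hcZ : c Z ∉ dD G β (Y : Set V) :=
      fun h => hc1 Z hZ (dD_mono (by exact_mod_cast hYZ) h)
    have h1 : ((X : Set V) ∩ Comp G (dD G β (Z : Set V))ᶜ (c Z)).ncard ≤
        ((X : Set V) ∩ Comp G (dD G β (Y : Set V))ᶜ (c Z)).ncard :=
      Set.ncard_le_ncard (Set.inter_subset_inter_right _ hsub) (Set.toFinite _)
    have h2 := hc2 Z hZ
    have h3 := huniq Y hY (c Z) hcZ (by omega)
    change Comp G (dD G β (Z : Set V))ᶜ (c Z) ⊆ Comp G (dD G β (Y : Set V))ᶜ (c Y)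
    rw [← h3]
    exact hsub
  · intro Y hY
    exact ⟨⟨c Y, hc1 Y hY, rfl⟩, hc2 Y hY⟩

end Pool.Agent.Work.MP_c4d05f_lc.N
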