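import Pool.Agent.Work.MP_c4d05f_lc.N.Brg

/-!
# Tools for predicates on regions that are closed under the rule R1
-/

set_option autoImplicit false

namespace Pool.Agent.Work.MP_c4d05f_lc.N

open Pool.Agent.Work.MP_c4d05f_lc Pool.Agent.Work.MP_c4d05f_lc.Hav

variable {V : Type} {G : SimpleGraph V} {β : Set V}

/-- Killing a set `Y` instead of one vertex, for any predicate closed under the rule R1. -/
theorem good_of_kill_aux [DecidableEq V] (hβ : Col G Set.univ β) {w : ℕ} {Good : Set V → Prop}
    (hstep : ∀ K y, Region G β w K → y ∈ K →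
      (∀ v ∈ K \ dd G β y, Good (Comp G (K \ dd G β y) v)) → Good K) (Y : Finset V) :
    ∀ (X : Finset V) (v : V), v ∉ dD G β X → X.card + Y.card ≤ w →
      (∀ u ∈ Comp G (dD G β X)ᶜ v, u ∉ dD G β Y →
        Good (Comp G (Comp G (dD G β X)ᶜ v \ dD G β Y) u)) →
      Good (Comp G (dD G β X)ᶜ v) := by
  induction Y using Finset.induction_on with
  | empty =>
    intro X v hv _ h
    have h1 := h v (self_mem_comp v) (by simp [dD])
    have h2 : (Comp G (dD G β (X : Set V))ᶜ v \ dD G β ((∅ : Finset V) : Set V)) =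
        Comp G (dD G β (X : Set V))ᶜ v \ ∅ := by
      simp [dD]
    rwa [h2, comp_comp hv (self_mem_comp v), Set.sdiff_empty] at h1
  | @insert y Y hyY ih =>
    intro X v hv hcard h
    rw [Finset.card_insert_of_notMem hyY] at hcard
    rw [Finset.coe_insert, dD_insert] at h
    by_cases hy : y ∈ Comp G (dD G β X)ᶜ v
    · refine hstep _ y ⟨X, by omega, v, hv, rfl⟩ hy ?_
      rintro u ⟨huK, huy⟩
      have hu' : u ∉ dD G β ((insert y X : Finset V) : Set V) := by
        rw [Finset.coe_insert, dD_insert]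
        rintro (h1 | h1)
        · exact huy h1
        · exact comp_subset (A := (dD G β (X : Set V))ᶜ) hv huK h1
      have e1 : Comp G (Comp G (dD G β (X : Set V))ᶜ v \ dd G β y) u =
          Comp G (dD G β ((insert y X : Finset V) : Set V))ᶜ u := by
        rw [Finset.coe_insert]
        exact comp_step hv huK
      rw [e1]
      refine ih (insert y X) u hu' ?_ ?_
      · have := Finset.card_insert_le y X
        omega
      · intro z hz hzY
        have hzK : z ∈ Comp G (dD G β (X : Set V))ᶜ v := by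
          rw [← e1, comp_comp hv huK] at hz
          have h1 := comp_mono (G := G) (A := (dD G β (X : Set V))ᶜ \ dd G β y) Set.sdiff_subset u hz
          rwa [comp_eq (A := (dD G β (X : Set V))ᶜ) hv huK] at h1
        have hzd : z ∉ dD G β ((insert y X : Finset V) : Set V) :=
          comp_subset (A := (dD G β ((insert y X : Finset V) : Set V))ᶜ) hu' hz
        rw [Finset.coe_insert, dD_insert] at hzd
        have h1 := h z hzK (by
          rintro (h2 | h2)
          · exact hzd (Or.inl h2)
          · exact hzY h2)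
        rw [comp_comp hv hzK] at h1
        rw [comp_comp hu' hz, Finset.coe_insert, dD_insert]
        have e2 : (dd G β y ∪ dD G β (X : Set V))ᶜ \ dD G β (Y : Set V) =
            (dD G β (X : Set V))ᶜ \ (dd G β y ∪ dD G β (Y : Set V)) := by
          ext a
          simp only [Set.mem_sdiff, Set.mem_compl_iff, Set.mem_union]
          tauto
        rwa [e2]
    · have e : Comp G (dD G β (X : Set V))ᶜ v \ (dd G β y ∪ dD G β (Y : Set V)) =
          Comp G (dD G β (X : Set V))ᶜ v \ dD G β (Y : Set V) := by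
        ext a
        simp only [Set.mem_sdiff, Set.mem_union, not_or]
        refine and_congr_right fun ha => ?_
        exact ⟨fun h1 => h1.2, fun h1 => ⟨region_disjoint hβ hv ha hy, h1⟩⟩
      refine ih X v hv (by omega) ?_
      intro u hu huY
      have h1 := h u hu (by
        rintro (h2 | h2)
        · exact region_disjoint hβ hv hu hy h2
        · exact huY h2)
      rwa [e] at h1

/-- **Iterated rule R1** for any predicate closed under R1 (the hypothesis `hkill` of
`hs_of_bad`). -/
theorem good_of_kill (hβ : Col G Set.univ β) {w w₁ : ℕ} {Good : Set V → Prop}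
    (hstep : ∀ K y, Region G β w K → y ∈ K →
      (∀ v ∈ K \ dd G β y, Good (Comp G (K \ dd G β y) v)) → Good K) {K : Set V}
    (hK : Region G β w₁ K) (Y : Finset V) (hY : w₁ + Y.card ≤ w)
    (h : ∀ u ∈ K, u ∉ dD G β Y → Good (Comp G (K \ dD G β Y) u)) : Good K := by
  classical
  obtain ⟨X, hX, v, hv, rfl⟩ := hK
  exact good_of_kill_aux hβ hstep Y X v hv (by omega) h

/-- A component of `G - D(Y)` different from the big one is small. -/
theorem small_other [Finite V] {X : Finset V} {w₁ : ℕ} (hX : X.card ≤ w₁) {Y : Set V} {u c : V}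
    (hu : u ∉ dD G β Y) (hc : c ∉ dD G β Y) (huc : u ∉ Comp G (dD G β Y)ᶜ c)
    (hbig : w₁ < 2 * ((X : Set V) ∩ Comp G (dD G β Y)ᶜ c).ncard) :
    2 * ((X : Set V) ∩ Comp G (dD G β Y)ᶜ u).ncard ≤ w₁ := by
  have hdisj : Disjoint ((X : Set V) ∩ Comp G (dD G β Y)ᶜ u)
      ((X : Set V) ∩ Comp G (dD G β Y)ᶜ c) := by
    rw [Set.disjoint_left]
    rintro z ⟨-, hz1⟩ ⟨-, hz2⟩
    apply huc
    rw [← comp_eq (A := (dD G β Y)ᶜ) hc hz2]
    exact Reach.symm (A := (dD G β Y)ᶜ) hu hz1
  have h1 := Set.ncard_union_eq hdisj (Set.toFinite _) (Set.toFinite _)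
  have h2 : ((X : Set V) ∩ Comp G (dD G β Y)ᶜ u ∪
      (X : Set V) ∩ Comp G (dD G β Y)ᶜ c).ncard ≤ (X : Set V).ncard :=
    Set.ncard_le_ncard (Set.union_subset Set.inter_subset_left Set.inter_subset_left)
      (Set.toFinite _)
  rw [Set.ncard_coe_finset] at h2
  omega

/-- The piece `Comp (K \ D(Y)) u` of the region `K = Comp (D(X)ᶜ) v` is a region of order
`|Y| + |X ∩ C|`, `C` the component of `u` in `G - D(Y)`. -/
theorem region_piece [Finite V] [DecidableEq V] (hβ : Col G Set.univ β) {X Y : Finset V} {v u : V}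
    (hv : v ∉ dD G β X) (hu : u ∈ Comp G (dD G β X)ᶜ v) (huY : u ∉ dD G β Y) :
    Region G β (Y.card + ((X : Set V) ∩ Comp G (dD G β Y)ᶜ u).ncard)
      (Comp G (Comp G (dD G β X)ᶜ v \ dD G β Y) u) := by
  classical
  have hfin : ((X : Set V) ∩ Comp G (dD G β (Y : Set V))ᶜ u).Finite := Set.toFinite _
  refine ⟨Y ∪ hfin.toFinset, ?_, u, ?_, ?_⟩
  · have h1 := Finset.card_union_le Y hfin.toFinset
    rw [← Set.ncard_eq_toFinset_card _ hfin] at h1
    exact h1
  · rw [Finset.coe_union, Set.Finite.coe_toFinset, dD_union]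
    rintro (h1 | ⟨x, hx, h1⟩)
    · exact huY h1
    · exact comp_subset (A := (dD G β (X : Set V))ᶜ) hv hu ⟨x, hx.1, h1⟩
  · rw [Finset.coe_union, Set.Finite.coe_toFinset]
    exact comp_swap hβ hv hu huY

/-- A component of a part of `K` is smaller than `K` if the part misses an element of `K`. -/
theorem piece_lt [Finite V] {K A : Set V} {u y : V} (hA : A ⊆ K) (hu : u ∈ A) (hy : y ∈ K)
    (hyA : y ∉ A) : (Comp G A u).ncard < K.ncard := by
  apply Set.ncard_lt_ncard _ (Set.toFinite _)
  refine ⟨fun z hz => hA (comp_subset hu hz), fun hsub => ?_⟩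
  exact hyA (comp_subset hu (hsub hy))

/-- If `|X ∩ C|` is at most `w₁ / 2` for the component `C` of `u` in `G - D(Y)`, and
`|Y| + w₁ / 2 ≤ w₁`, the piece is a region of order `w₁`. -/
theorem region_piece_small [Finite V] [DecidableEq V] (hβ : Col G Set.univ β) {X Y : Finset V}
    {v u : V} {w₁ : ℕ} (hv : v ∉ dD G β X) (hu : u ∈ Comp G (dD G β X)ᶜ v)
    (huY : u ∉ dD G β Y) (hY : 2 * Y.card ≤ w₁)
    (hs : 2 * ((X : Set V) ∩ Comp G (dD G β Y)ᶜ u).ncard ≤ w₁) :
    Region G β w₁ (Comp G (Comp G (dD G β X)ᶜ v \ dD G β Y) u) := by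
  obtain ⟨Z, hZ, h⟩ := region_piece hβ hv hu huY
  exact ⟨Z, by omega, h⟩

end Pool.Agent.Work.MP_c4d05f_lc.N
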