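import Pool.Agent.Work.MP_c4d05f_lc.N.Brg
import Pool.Agent.Work.MP_c4d05f_lc.N.Hav.Main

/-!
# Stage 1: graphs without induced `S_{l,l,l}` and without induced nets with legs of length `l`
-/

set_option autoImplicit false

namespace Pool.Agent.Work.MP_c4d05f_lc.N

open Pool.Agent.Work.MP_c4d05f_lc Pool.Agent.Work.MP_c4d05f_lc.Hav

/-- **Stage 1.** -/
theorem havenThm_one (l : ℕ) : ∃ w : ℕ, HavenThm (fun _ G => ¬ HasS G l ∧ ¬ HasL G l) w := by
  classical
  obtain ⟨k, hk⟩ := haven l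
  refine ⟨2 * (k + 1) + (k + 1), fun V _ G β hP _ hβ v => ?_⟩
  by_contra hbad
  obtain ⟨X, u, -, -, -, -, H, hG, -⟩ := hs_of_bad hβ k (2 * (k + 1)) le_rfl
    (Der G β (2 * (k + 1) + (k + 1)))
    (fun K hK Y hY h => der_of_kill hβ hK Y (by omega) h) _ (region_univ _ v) hbad
  rcases hk V k H le_rfl with h | h
  · exact hP.1 (hG ▸ h)
  · exact hP.2 (hG ▸ h)

end Pool.Agent.Work.MP_c4d05f_lc.N
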